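import Pool.Agent.Q291.TL.Sub
import Pool.Agent.Q291.TL.Sup
import Pool.Agent.Q291.TL.Anal

/-!
The critical curve of two-length oriented percolation on the `d`-ary tree is not concave near `0`.
-/

set_option autoImplicit false

namespace Pool.Agent.Results.MP_ea7c0e_pr.NotConcaveNearZero

open Q291.TL

/-- The set in the definition of the critical curve. -/
theorem mem_set {d K : ℕ} (hd : 2 ≤ d) (hK : 1 ≤ K) {η : ℝ} (hη1 : η ≤ 1) {p : unitInterval}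
    (hp : 0 < (p : ℝ)) (hp8 : (p : ℝ) ≤ 1 / 8) (hpη : 4 * (p : ℝ) < η) (hpd : (p : ℝ) * d < 1) :
    (1 - (p : ℝ) * d + η * p) / (d : ℝ) ^ (K + 1) ∈ {x : ℝ | 0 < x ∧ x < 1 ∧
      ∃ q : unitInterval, (q : ℝ) = x ∧ 0 < theta d (K + 1) p q} := by
  have hd2 : (2 : ℝ) ≤ d := by exact_mod_cast hd
  have hd0 : (0 : ℝ) < d := by linarith
  have hdK : 0 < (d : ℝ) ^ (K + 1) := by positivity
  have hdK4 : (4 : ℝ) ≤ (d : ℝ) ^ (K + 1) := by
    calc (4 : ℝ) = 2 ^ 2 := by norm_num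
      _ ≤ (d : ℝ) ^ 2 := pow_le_pow_left₀ (by norm_num) hd2 2
      _ ≤ (d : ℝ) ^ (K + 1) := pow_le_pow_right₀ (by linarith) (by omega)
  have hη0 : 0 < η := by linarith
  have h1 : 0 < 1 - (p : ℝ) * d + η * p := by
    have := mul_pos hη0 hp
    linarith
  have h2 : 1 - (p : ℝ) * d + η * p ≤ 1 := by nlinarith
  have h3 : 0 < (1 - (p : ℝ) * d + η * p) / (d : ℝ) ^ (K + 1) := by positivity
  have h4 : (1 - (p : ℝ) * d + η * p) / (d : ℝ) ^ (K + 1) < 1 := by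
    rw [div_lt_one hdK]
    linarith
  refine ⟨h3, h4, ⟨⟨_, h3.le, h4.le⟩, rfl, ?_⟩⟩
  obtain ⟨m, hm⟩ := exists_big (q := ⟨(1 - (p : ℝ) * d + η * p) / (d : ℝ) ^ (K + 1), h3.le, h4.le⟩)
    hd hK hη1 hp hp8 hpη rfl
  exact theta_pos (by omega) hm

theorem qc_upper {d K : ℕ} (hd : 2 ≤ d) (hK : 1 ≤ K) {η : ℝ} (hη1 : η ≤ 1) {p : unitInterval}
    (hp : 0 < (p : ℝ)) (hp8 : (p : ℝ) ≤ 1 / 8) (hpη : 4 * (p : ℝ) < η) (hpd : (p : ℝ) * d < 1) :
    qc d (K + 1) p ≤ (1 - (p : ℝ) * d + η * p) / (d : ℝ) ^ (K + 1) :=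
  csInf_le ⟨0, fun _ hx => hx.1.le⟩ (mem_set hd hK hη1 hp hp8 hpη hpd)

theorem qc_lower {d K : ℕ} (hd : 2 ≤ d) (hK : 1 ≤ K) {p : unitInterval}
    (hp : 0 < (p : ℝ)) (hp8 : (p : ℝ) ≤ 1 / 8) (hpd : (p : ℝ) * d < 1) :
    (1 - (p : ℝ) * d) / (d : ℝ) ^ (K + 1) < qc d (K + 1) p := by
  have hd0 : (0 : ℝ) < d := by exact_mod_cast (by omega : 0 < d)
  have hdK : 0 < (d : ℝ) ^ (K + 1) := by positivity
  have hpk0 : 0 < (p : ℝ) ^ (K + 1) := by positivity
  have hpk1 : (p : ℝ) ^ (K + 1) < 1 := pow_lt_one₀ hp.le (by linarith) (by omega)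
  have h1 : (1 - (p : ℝ) * d) / (d : ℝ) ^ (K + 1) <
      (1 - (p : ℝ) * d) / ((d : ℝ) ^ (K + 1) * (1 - (p : ℝ) ^ (K + 1))) := by
    apply div_lt_div_of_pos_left (by linarith)
    · exact mul_pos hdK (by linarith)
    · nlinarith
  refine lt_of_lt_of_le h1 (le_csInf ⟨_, mem_set hd hK le_rfl hp hp8 (by linarith) hpd⟩ ?_)
  rintro x ⟨_, _, q, rfl, hq⟩
  by_contra hc
  push Not at hc
  rw [lt_div_iff₀ (mul_pos hdK (by linarith))] at hc
  rw [theta_zero (by linarith)] at hq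
  exact lt_irrefl _ hq

theorem qc_zero {d K : ℕ} (hd : 2 ≤ d) (hK : 1 ≤ K) {p : unitInterval} (hp : (p : ℝ) = 0) :
    qc d (K + 1) p = 1 / (d : ℝ) ^ (K + 1) := by
  have hd2 : (2 : ℝ) ≤ d := by exact_mod_cast hd
  have hd0 : (0 : ℝ) < d := by linarith
  have hdK : 0 < (d : ℝ) ^ (K + 1) := by positivity
  have hdK4 : (4 : ℝ) ≤ (d : ℝ) ^ (K + 1) := by
    calc (4 : ℝ) = 2 ^ 2 := by norm_num
      _ ≤ (d : ℝ) ^ 2 := pow_le_pow_left₀ (by norm_num) hd2 2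
      _ ≤ (d : ℝ) ^ (K + 1) := pow_le_pow_right₀ (by linarith) (by omega)
  have hin : ∀ x : ℝ, 1 / (d : ℝ) ^ (K + 1) < x → x < 1 → x ∈ {x : ℝ | 0 < x ∧ x < 1 ∧
      ∃ q : unitInterval, (q : ℝ) = x ∧ 0 < theta d (K + 1) p q} := by
    intro x hx hx1
    have hx0 : 0 < x := lt_trans (by positivity) hx
    refine ⟨hx0, hx1, ⟨x, hx0.le, hx1.le⟩, rfl, ?_⟩
    apply theta_pos (m := K + 1) (by omega)
    rw [uu_succ_ge le_rfl, hp, Nat.sub_self, uu_zero]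
    rw [div_lt_iff₀ hdK] at hx
    simp only [zero_mul, zero_add, mul_one, sub_zero]
    linarith
  have hlt1 : 1 / (d : ℝ) ^ (K + 1) < 1 := by
    rw [div_lt_one hdK]
    linarith
  apply le_antisymm
  · apply le_of_forall_gt_imp_ge_of_dense
    intro x hx
    rcases lt_or_ge x 1 with h | h
    · exact csInf_le ⟨0, fun _ hx => hx.1.le⟩ (hin x hx h)
    · obtain ⟨y, hy1, hy2⟩ := exists_between hlt1
      exact (csInf_le ⟨0, fun _ hx => hx.1.le⟩ (hin y hy1 hy2)).trans (by linarith)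
  · obtain ⟨y, hy1, hy2⟩ := exists_between hlt1
    refine le_csInf ⟨y, hin y hy1 hy2⟩ ?_
    rintro x ⟨_, _, q, rfl, hq⟩
    by_contra hc
    push Not at hc
    rw [lt_div_iff₀ hdK] at hc
    rw [theta_zero (by
      rw [hp, zero_pow (by omega), zero_mul, sub_zero, mul_one, zero_add]
      exact hc)] at hq
    exact lt_irrefl _ hq

/-- **The critical curve is not concave near `0`**: for all `d ≥ 2` and `k ≥ 2` and for every
`0 < δ ≤ 1`, the critical curve `p ↦ q_c(p)` of two-length oriented percolation on the `d`-ary tree is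
not concave on `[0, δ]`. -/
theorem result (d k : ℕ) (hd : 2 ≤ d) (hk : 2 ≤ k) (δ : ℝ) (hδ : 0 < δ) (_hδ1 : δ ≤ 1) :
    ¬ ConcaveOn ℝ (Set.Icc 0 δ) (fun x : ℝ => qc d k (Set.projIcc 0 1 zero_le_one x)) := by
  obtain ⟨K, rfl⟩ : ∃ K, k = K + 1 := ⟨k - 1, by omega⟩
  have hK : 1 ≤ K := by omega
  intro hconc
  have hd2 : (2 : ℝ) ≤ d := by exact_mod_cast hd
  have hd0 : (0 : ℝ) < d := by linarith
  obtain ⟨D, hD⟩ : ∃ D : ℝ, D = (d : ℝ) ^ (K + 1) := ⟨_, rfl⟩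
  have hD0 : 0 < D := by rw [hD]; positivity
  have hproj : ∀ x : ℝ, 0 ≤ x → x ≤ 1 →
      ((Set.projIcc 0 1 zero_le_one x : unitInterval) : ℝ) = x := by
    intro x h0 h1
    rw [Set.projIcc_of_mem zero_le_one ⟨h0, h1⟩]
  -- the point `y`
  obtain ⟨y, hy⟩ : ∃ y : ℝ, y = min δ (1 / (8 * d)) := ⟨_, rfl⟩
  have hy0 : 0 < y := by rw [hy]; positivity
  have hyδ : y ≤ δ := by rw [hy]; exact min_le_left _ _
  have hyd : y * d ≤ 1 / 8 := by
    have h1 : y ≤ 1 / (8 * d) := by rw [hy]; exact min_le_right _ _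
    calc y * d ≤ 1 / (8 * d) * d := mul_le_mul_of_nonneg_right h1 hd0.le
      _ = 1 / 8 := by field_simp
  have hy8 : y ≤ 1 / 8 := by nlinarith
  have hpy := hproj y hy0.le (by linarith)
  have hlow := qc_lower (d := d) (K := K) hd hK (p := Set.projIcc 0 1 zero_le_one y)
    (by rw [hpy]; exact hy0) (by rw [hpy]; exact hy8) (by rw [hpy]; linarith)
  rw [hpy, ← hD] at hlow
  obtain ⟨g, hg⟩ : ∃ g : ℝ, g = qc d (K + 1) (Set.projIcc 0 1 zero_le_one y) -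
    (1 - y * d) / D := ⟨_, rfl⟩
  have hg0 : 0 < g := by rw [hg]; linarith
  -- the parameter `η`
  obtain ⟨η, hη⟩ : ∃ η : ℝ, η = min 1 (g * D / (2 * y)) := ⟨_, rfl⟩
  have hη0 : 0 < η := by rw [hη]; positivity
  have hη1 : η ≤ 1 := by rw [hη]; exact min_le_left _ _
  have hη2 : η ≤ g * D / (2 * y) := by rw [hη]; exact min_le_right _ _
  -- the point `x`
  obtain ⟨x, hx⟩ : ∃ x : ℝ, x = min (y / 2) (η / 8) := ⟨_, rfl⟩
  have hx0 : 0 < x := by rw [hx]; positivity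
  have hxy : x ≤ y / 2 := by rw [hx]; exact min_le_left _ _
  have hxη : x ≤ η / 8 := by rw [hx]; exact min_le_right _ _
  have hpx := hproj x hx0.le (by linarith)
  have hup := qc_upper (d := d) (K := K) hd hK hη1 (p := Set.projIcc 0 1 zero_le_one x)
    (by rw [hpx]; exact hx0) (by rw [hpx]; linarith) (by rw [hpx]; linarith)
    (by rw [hpx]; nlinarith)
  rw [hpx, ← hD] at hup
  have hzero := qc_zero (d := d) (K := K) hd hK (p := Set.projIcc 0 1 zero_le_one 0)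
    (hproj 0 le_rfl zero_le_one)
  rw [← hD] at hzero
  -- concavity
  have hxy1 : x / y ≤ 1 := by
    rw [div_le_one hy0]
    linarith
  have hc := hconc.2 (show (0:ℝ) ∈ Set.Icc 0 δ from ⟨le_rfl, hδ.le⟩)
    (show y ∈ Set.Icc 0 δ from ⟨hy0.le, hyδ⟩) (show 0 ≤ 1 - x / y by linarith)
    (show 0 ≤ x / y by positivity) (by ring)
  simp only [smul_eq_mul, mul_zero, zero_add, div_mul_cancel₀ _ hy0.ne'] at hc
  rw [hzero] at hc
  have h1 : qc d (K + 1) (Set.projIcc 0 1 zero_le_one y) = (1 - y * d) / D + g := by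
    rw [hg]
    ring
  rw [h1] at hc
  have h2 : (1 - x / y) * (1 / D) + x / y * ((1 - y * d) / D + g) =
      (1 - x * d) / D + x * g / y := by
    field_simp
    ring
  rw [h2] at hc
  have h3 : (1 - x * d + η * x) / D = (1 - x * d) / D + x * (η / D) := by
    field_simp
  rw [h3] at hup
  have h4 : x * g / y ≤ x * (η / D) := by linarith
  have h5 : x * g / y = x * (g / y) := by ring
  rw [h5] at h4
  have h6 : g / y ≤ η / D := le_of_mul_le_mul_left h4 hx0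
  have h7 : η / D ≤ g / (2 * y) := by
    rw [div_le_iff₀ hD0]
    calc η ≤ g * D / (2 * y) := hη2
      _ = g / (2 * y) * D := by ring
  have h8 : g / (2 * y) = g / y / 2 := by
    field_simp
  have h9 : 0 < g / y := by positivity
  rw [h8] at h7
  linarith

end Pool.Agent.Results.MP_ea7c0e_pr.NotConcaveNearZero
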